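import Pool.Agent.Lib.MP_688fd0_co.OSF.Iface

/-! Groups of odd order, module PLACE: disjoint translates (helper74). -/

set_option autoImplicit false

namespace Pool.Agent.Lib.MP_688fd0_co.OSF

universe u

theorem place : PlaceS.{u} := by
  classical
  intro Q _ _ u ι _ F K hF hK
  have key : ∀ s : Finset ι, ∃ x : ι → Q, (∀ i, x i ∈ Subgroup.zpowers u) ∧
      ∀ i ∈ s, ∀ j ∈ s, i ≠ j → ∀ y ∈ F i, ∀ z ∈ F j, x i * y ≠ x j * z := by
    intro s
    induction s using Finset.induction_on with
    | empty => exact ⟨fun _ => 1, fun _ => Subgroup.one_mem _, by simp⟩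
    | insert i s hi ih =>
      obtain ⟨x, hx, hd⟩ := ih
      obtain ⟨D, hD⟩ : ∃ D : Finset Q, D = s.biUnion (fun j => (F i ×ˢ F j).image
        (fun p => x j * p.2 * p.1⁻¹)) := ⟨_, rfl⟩
      have hDc : D.card < orderOf u := by
        refine lt_of_le_of_lt ?_ hK
        rw [hD]
        refine Finset.card_biUnion_le.trans ?_
        refine (Finset.sum_le_card_nsmul s _ (K ^ 2) ?_).trans ?_
        · intro j _
          refine Finset.card_image_le.trans ?_
          rw [Finset.card_product, pow_two]
          exact Nat.mul_le_mul (hF i) (hF j)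
        · rw [smul_eq_mul]
          exact Nat.mul_le_mul_right _ (Finset.card_le_univ s)
      obtain ⟨U, hU⟩ : ∃ U : Finset Q, U = Finset.univ.filter (fun g => g ∈ Subgroup.zpowers u) :=
        ⟨_, rfl⟩
      have hUc : U.card = orderOf u := by
        rw [hU, ← Nat.card_zpowers, Nat.card_eq_fintype_card]
        exact (Fintype.card_subtype _).symm
      obtain ⟨v, hvU, hvD⟩ : ∃ v ∈ U, v ∉ D :=
        Finset.exists_mem_notMem_of_card_lt_card (by rw [hUc]; exact hDc)
      rw [hU, Finset.mem_filter] at hvU
      have hv : ∀ j ∈ s, ∀ y ∈ F i, ∀ z ∈ F j, v * y ≠ x j * z := by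
        intro j hj y hy z hz h
        apply hvD
        rw [hD, Finset.mem_biUnion]
        refine ⟨j, hj, Finset.mem_image.2 ⟨(y, z), Finset.mem_product.2 ⟨hy, hz⟩, ?_⟩⟩
        rw [← h, mul_inv_cancel_right]
      refine ⟨Function.update x i v, ?_, ?_⟩
      · intro j
        by_cases hj : j = i
        · rw [hj, Function.update_self]; exact hvU.2
        · rw [Function.update_of_ne hj]; exact hx j
      · intro j hj k hk hjk y hy z hz
        rw [Finset.mem_insert] at hj hk
        by_cases h1 : j = i
        · have h2 : k ≠ i := fun h => hjk (h1.trans h.symm)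
          subst h1
          rw [Function.update_self, Function.update_of_ne h2]
          exact hv k (hk.resolve_left h2) y hy z hz
        · by_cases h2 : k = i
          · subst h2
            rw [Function.update_self, Function.update_of_ne h1]
            exact fun h => hv j (hj.resolve_left h1) z hz y hy h.symm
          · rw [Function.update_of_ne h1, Function.update_of_ne h2]
            exact hd j (hj.resolve_left h1) k (hk.resolve_left h2) hjk y hy z hz
  obtain ⟨x, hx, hd⟩ := key Finset.univ
  exact ⟨x, hx, fun i j => hd i (Finset.mem_univ i) j (Finset.mem_univ j)⟩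

end Pool.Agent.Lib.MP_688fd0_co.OSF
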