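import Pool.Agent.Lib.MP_688fd0_co.OSF.Iface

/-!
Module STR (helper74): the structural theorem, from CORE, FACTOR and HDATA.
-/

set_option autoImplicit false

namespace Pool.Agent.Lib.MP_688fd0_co.OSF

universe u

namespace Str

theorem big_mono {r ρ ρ' : ℕ} (h : ρ ≤ ρ') : big r ρ ≤ big r ρ' := by
  unfold big
  have h1 : 2 ^ (ρ + 1) ≤ 2 ^ (ρ' + 1) := Nat.pow_le_pow_right (by norm_num) (by omega)
  gcongr

theorem two_le_big (r ρ : ℕ) : 2 ≤ big r ρ := by
  unfold big
  have h1 : 2 ^ 1 ≤ 2 ^ (ρ + 1) := Nat.pow_le_pow_right (by norm_num) (by omega)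
  omega

theorem red_eq {m p : ℕ} [NeZero m] (h : p ∣ m) (x : ZMod m) : red h x = (x.val : ZMod p) := by
  unfold red
  conv_lhs => rw [← ZMod.natCast_zmod_val x]
  exact map_natCast _ _

theorem map_kap {Q : Type*} [Group Q] {B : Lb Q} {R R' : Type*} [CommRing R] [CommRing R']
    (V : Vd B R) (f : R →+* R') (g h : B.L) : (V.map f).kap g h = f (V.kap g h) := by
  simp only [Vd.kap, Vd.map, map_sub, map_mul, map_one]
  rfl

end Str

open Str in
theorem str (hC : CoreS.{u, u}) (hF : FactorS.{u, u}) (hH : HdataS.{u}) : StrS.{u} := by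
  classical
  intro G _ _ A C hCn a u hodd hsym hgen haA hcyc hcop hCeq hA1 hA2 hu hbu hba
  obtain ⟨s, z, chi, ν, h1, h2, h3, h4, h5, h6, h7, h8⟩ := hH G C hCn hcyc hcop
  have hm0 : 0 < Nat.card C := Nat.card_pos
  haveI : NeZero (Nat.card C) := ⟨hm0.ne'⟩
  have hmk : ∀ g, QuotientGroup.mk' C g = 1 ↔ g ∈ C := fun g => by
    rw [QuotientGroup.mk'_apply, QuotientGroup.eq_one_iff]
  have hsur : Function.Surjective (QuotientGroup.mk' C) := QuotientGroup.mk'_surjective C
  haveI : Fintype (G ⧸ C) := Fintype.ofFinite _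
  -- labels
  let B : Lb.{u, u} (G ⧸ C) :=
    { L := {g : G // g ∈ A ∧ QuotientGroup.mk' C g ≠ 1}
      q := fun g => QuotientGroup.mk' C g.1
      inv := fun g => ⟨g.1⁻¹, hsym _ g.2.1, by rw [map_inv]; exact inv_ne_one.2 g.2.2⟩
      q_inv := fun g => map_inv _ _
      ne_one := fun g => g.2.2 }
  let V : Vd B (ZMod (Nat.card C)) :=
    { chi := chi
      n := fun g => ν g.1
      n_inv := fun g => h6 g.1 }
  have ha1 : QuotientGroup.mk' C a ≠ 1 := by
    intro h
    rw [h, orderOf_one] at hba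
    have := two_le_big (Nat.card C).primeFactors.card (Nat.card A)
    omega
  let a' : B.L := ⟨a, haA, ha1⟩
  -- `a` commutes with the elements of `A`, modulo `C`
  have hcomm : ∀ t ∈ A, a * t * a⁻¹ * t⁻¹ ∈ C := by
    intro t ht
    rw [hCeq]
    exact Subgroup.subset_closure ⟨t, ht, rfl⟩
  have hcomm' : ∀ t ∈ A, QuotientGroup.mk' C (a * t) = QuotientGroup.mk' C (t * a) := by
    intro t ht
    have e := (hmk _).2 (hcomm t ht)
    rw [map_mul, map_mul, map_inv, map_inv, mul_inv_eq_one, mul_inv_eq_iff_eq_mul] at e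
    rw [e, map_mul]
  have hcen : Cen a' := by
    intro x
    obtain ⟨g, rfl⟩ := hsur x
    have hg : g ∈ Subgroup.closure A := by rw [hgen]; trivial
    show QuotientGroup.mk' C g * QuotientGroup.mk' C a = QuotientGroup.mk' C a * QuotientGroup.mk' C g
    refine Subgroup.closure_induction (p := fun g _ => QuotientGroup.mk' C g *
      QuotientGroup.mk' C a = QuotientGroup.mk' C a * QuotientGroup.mk' C g) ?_ ?_ ?_ ?_ hg
    · intro t ht
      have := hcomm' t ht
      rw [map_mul, map_mul] at this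
      exact this.symm
    · rw [map_one, one_mul, mul_one]
    · intro x y _ _ hx hy
      rw [map_mul, mul_assoc, hy, ← mul_assoc, hx, mul_assoc]
    · intro x _ hx
      rw [map_inv]
      exact ((show Commute (QuotientGroup.mk' C x) (QuotientGroup.mk' C a) from hx).inv_left).eq
  -- the condition on `κ`
  have hkap : ∀ p, ∀ hp : p ∈ (Nat.card C).primeFactors, ∃ t,
      (V.map (red (Nat.dvd_of_mem_primeFactors hp))).kap a' t ≠ 0 := by
    intro p hp
    by_contra hcon
    push Not at hcon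
    have hpp : p.Prime := Nat.prime_of_mem_primeFactors hp
    have hpd : p ∣ Nat.card C := Nat.dvd_of_mem_primeFactors hp
    have hle : C ≤ Subgroup.zpowers (z ^ p) := by
      rw [hCeq, Subgroup.closure_le]
      rintro x ⟨t, ht, rfl⟩
      by_cases htC : QuotientGroup.mk' C t = 1
      · have : t = 1 := hA1 t ht ((hmk t).1 htC)
        rw [this, mul_one, mul_inv_cancel, one_mul, inv_one]
        exact Subgroup.one_mem _
      · have e := hcon ⟨t, ht, htC⟩
        rw [map_kap, red_eq] at e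
        rw [ZMod.natCast_eq_zero_iff] at e
        obtain ⟨j, hj⟩ := e
        have e2 : a * t * a⁻¹ * t⁻¹ = z ^ (V.kap a' ⟨t, ht, htC⟩).val := h7 a t (hcomm' t ht)
        rw [e2, hj, pow_mul]
        exact Subgroup.pow_mem _ (Subgroup.mem_zpowers _) j
    have hz : z ∈ C := by rw [← h2]; exact Subgroup.mem_zpowers z
    obtain ⟨j, hj⟩ := Subgroup.mem_zpowers_iff.1 (hle hz)
    have e : z ^ ((p : ℤ) * j - 1) = 1 := by
      rw [zpow_sub, zpow_one, zpow_mul, zpow_natCast, hj, mul_inv_cancel]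
    have e2 := orderOf_dvd_iff_zpow_eq_one.2 e
    rw [h3] at e2
    have e3 : (p : ℤ) ∣ (p : ℤ) * j - 1 := (Int.natCast_dvd_natCast.2 hpd).trans e2
    have e4 : (p : ℤ) ∣ 1 := by
      have := dvd_sub (dvd_mul_right (p : ℤ) j) e3
      rwa [sub_sub_cancel] at this
    have e5 : p ∣ 1 := by exact_mod_cast e4
    exact hpp.one_lt.ne' (Nat.dvd_one.1 e5)
  have hsq : ∀ t : B.L, B.q t ^ 2 ≠ B.q a' ∧ B.q t ^ 2 ≠ (B.q a')⁻¹ := by
    intro t
    obtain ⟨k1, k2⟩ := hA2 t.1 t.2.1
    constructor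
    · intro h
      apply k2
      rw [← hmk, map_mul, map_pow, map_inv, mul_inv_eq_one]
      exact h
    · intro h
      apply k1
      rw [← hmk, map_mul, map_pow, mul_eq_one_iff_eq_inv]
      exact h
  have hgenQ : Subgroup.closure (Set.range B.q) = ⊤ := by
    rw [eq_top_iff]
    intro x _
    obtain ⟨g, rfl⟩ := hsur x
    have hg : g ∈ Subgroup.closure A := by rw [hgen]; trivial
    refine Subgroup.closure_induction (p := fun g _ => QuotientGroup.mk' C g ∈
      Subgroup.closure (Set.range B.q)) ?_ ?_ ?_ ?_ hg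
    · intro t ht
      by_cases htC : QuotientGroup.mk' C t = 1
      · rw [htC]; exact Subgroup.one_mem _
      · exact Subgroup.subset_closure ⟨⟨t, ht, htC⟩, rfl⟩
    · rw [map_one]; exact Subgroup.one_mem _
    · intro x y _ _ hx hy
      rw [map_mul]; exact Subgroup.mul_mem _ hx hy
    · intro x _ hx
      rw [map_inv]; exact Subgroup.inv_mem _ hx
  have hfin : Finite B.L := inferInstanceAs (Finite {g : G // g ∈ A ∧ QuotientGroup.mk' C g ≠ 1})
  have hoddQC : Odd (Nat.card (G ⧸ C)) ∧ Odd (Nat.card C) := by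
    rw [← Nat.odd_mul, ← Subgroup.card_eq_card_quotient_mul_card_subgroup]
    exact hodd
  have hoddQ : Odd (Fintype.card (G ⧸ C)) := by
    rw [← Nat.card_eq_fintype_card]
    exact hoddQC.1
  have hoddC : Odd (Nat.card C) := hoddQC.2
  have hcard : Nat.card B.L ≤ Nat.card A := by
    refine Nat.card_le_card_of_injective (fun g : B.L => (⟨g.1, g.2.1⟩ : A)) ?_
    intro g h hgh
    exact Subtype.ext (congrArg (fun t : A => (t : G)) hgh)
  have hb := big_mono (r := (Nat.card C).primeFactors.card) hcard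
  obtain ⟨T, hT⟩ := hC (G ⧸ C) B (Nat.card C) V a' (QuotientGroup.mk' C u) hfin hoddQ hoddC hcen
    hkap hsq hgenQ (h8 u hu) (hb.trans hbu) (hb.trans hba)
  have hz1 : QuotientGroup.mk' C z = 1 := by
    rw [hmk, ← h2]; exact Subgroup.mem_zpowers z
  exact hF G (G ⧸ C) (Nat.card C) (QuotientGroup.mk' C) s z chi ν hm0 h1 hz1 h3
    (fun g hg => by rw [h2]; exact (hmk g).1 hg) h4 h5 A (fun x => (T.lab x).1)
    (fun x => (T.lab x).2.1) T.trans hT

end Pool.Agent.Lib.MP_688fd0_co.OSF
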