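import Pool.Agent.Lib.MP_688fd0_co.OSF.Iface

/-!
Module LOOP (helper74): a generator which generates a normal subgroup.
-/

set_option autoImplicit false

namespace Pool.Agent.Lib.MP_688fd0_co.OSF

universe u

namespace Loop

variable {G : Type u} [Group G]

/-- partial products -/
def pp (F : ℕ → G) : ℕ → G
  | 0 => 1
  | m + 1 => pp F m * F m

theorem pp_eq (F : ℕ → G) (m : ℕ) : ((List.range m).map F).prod = pp F m := by
  induction m with
  | zero => simp [pp]
  | succ m ih => rw [List.range_succ, List.map_append, List.prod_append, ih]; simp [pp]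

omit [Group G] in
theorem ofFn_take (F : ℕ → G) {n m : ℕ} (h : m ≤ n) :
    (List.ofFn (fun i : Fin n => F i)).take m = (List.range m).map F := by
  apply List.ext_getElem
  · simp [h]
  · intro i h1 h2
    simp

theorem pp_take (F : ℕ → G) {n m : ℕ} (h : m ≤ n) :
    ((List.ofFn (fun i : Fin n => F i)).take m).prod = pp F m := by
  rw [ofFn_take F h, pp_eq]

theorem aux {A : Set G} {a : G} (ha : a ∈ A) (N : Subgroup G) [N.Normal] (haN : a ∈ N) {k n : ℕ}
    (ho0 : 0 < orderOf a) (hn : n = k * orderOf a) (b : Fin k → G ⧸ N)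
    (hb1 : ∀ i, b i ∈ QuotientGroup.mk' N '' A)
    (hb2 : Function.Injective (fun i : Fin k => ((List.ofFn b).take (i + 1)).prod)) :
    ∃ a' : Fin n → G, (∀ i, a' i ∈ A) ∧
      Function.Injective (fun i : Fin n => ((List.ofFn a').take (i + 1)).prod) := by
  classical
  subst hn
  obtain ⟨o, ho⟩ : ∃ o, o = orderOf a := ⟨_, rfl⟩
  rw [← ho] at ho0 ⊢
  -- lifts
  choose c hcA hcb using hb1
  let c' : ℕ → G := fun i => if h : i < k then c ⟨i, h⟩ else a
  have hc'A : ∀ i, c' i ∈ A := by
    intro i
    by_cases h : i < k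
    · simp only [c', dif_pos h]; exact hcA _
    · simp only [c', dif_neg h]; exact ha
  let mk := QuotientGroup.mk' N
  have hmka : mk a = 1 := by
    rw [QuotientGroup.mk'_apply, QuotientGroup.eq_one_iff]
    exact haN
  have hbc : b = fun i : Fin k => mk (c' i) := by
    funext i
    simp only [c', dif_pos i.2]
    exact (hcb i).symm
  let F : ℕ → G := fun t => if t % o = 0 then c' (t / o) else a
  have hF0 : ∀ j, F (j * o) = c' j := by
    intro j
    simp only [F, Nat.mul_mod_left, if_true, Nat.mul_div_cancel _ ho0]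
  have hF1 : ∀ j i, 0 < i → i < o → F (j * o + i) = a := by
    intro j i hi hio
    have : (j * o + i) % o = i := by rw [Nat.mul_add_mod', Nat.mod_eq_of_lt hio]
    simp only [F, this, if_neg hi.ne']
  have key : ∀ j i, i < o → pp F (j * o + i + 1) = pp F (j * o) * c' j * a ^ i := by
    intro j i
    induction i with
    | zero => intro _; simp only [pp, hF0, pow_zero, mul_one]
    | succ i ih =>
      intro hi
      rw [pp, ← add_assoc, ih (by omega), add_assoc, hF1 j (i + 1) (by omega) hi, pow_succ,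
        mul_assoc]
  have key2 : ∀ j, mk (pp F (j * o)) = pp (fun i => mk (c' i)) j := by
    intro j
    induction j with
    | zero => simp [pp]
    | succ j ih =>
      have e : (j + 1) * o = j * o + (o - 1) + 1 := by
        rw [add_mul, one_mul]; omega
      rw [e, key j (o - 1) (by omega), map_mul, map_mul, map_pow, hmka, one_pow, mul_one, ih, pp]
  have key3 : ∀ j i, i < o → mk (pp F (j * o + i + 1)) = pp (fun i => mk (c' i)) (j + 1) := by
    intro j i hi
    rw [key j i hi, map_mul, map_mul, map_pow, hmka, one_pow, mul_one, key2, pp]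
  refine ⟨fun t => F t, fun t => ?_, ?_⟩
  · simp only [F]
    split_ifs
    · exact hc'A _
    · exact ha
  · intro t t' htt
    simp only at htt
    rw [pp_take F (by have := t.2; omega), pp_take F (by have := t'.2; omega)] at htt
    have h1 : (t : ℕ) = (t : ℕ) / o * o + (t : ℕ) % o := (Nat.div_add_mod' _ _).symm
    have h2 : (t' : ℕ) = (t' : ℕ) / o * o + (t' : ℕ) % o := (Nat.div_add_mod' _ _).symm
    have m1 : (t : ℕ) % o < o := Nat.mod_lt _ ho0
    have m2 : (t' : ℕ) % o < o := Nat.mod_lt _ ho0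
    have d1 : (t : ℕ) / o < k := (Nat.div_lt_iff_lt_mul ho0).2 t.2
    have d2 : (t' : ℕ) / o < k := (Nat.div_lt_iff_lt_mul ho0).2 t'.2
    have e1 := key3 ((t : ℕ) / o) ((t : ℕ) % o) m1
    have e2 := key3 ((t' : ℕ) / o) ((t' : ℕ) % o) m2
    rw [← h1] at e1
    rw [← h2] at e2
    have e3 : pp (fun i => mk (c' i)) ((t : ℕ) / o + 1) =
        pp (fun i => mk (c' i)) ((t' : ℕ) / o + 1) := by rw [← e1, ← e2, htt]
    have hdiv : (t : ℕ) / o = (t' : ℕ) / o := by
      have := @hb2 ⟨(t : ℕ) / o, d1⟩ ⟨(t' : ℕ) / o, d2⟩ (by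
        simp only
        rw [hbc, pp_take (fun i => mk (c' i)) (by omega), pp_take (fun i => mk (c' i)) (by omega)]
        exact e3)
      exact congrArg Fin.val this
    have f1 := key ((t : ℕ) / o) ((t : ℕ) % o) m1
    have f2 := key ((t' : ℕ) / o) ((t' : ℕ) % o) m2
    rw [← h1] at f1
    rw [← h2] at f2
    rw [htt, f2, hdiv] at f1
    have f3 : a ^ ((t' : ℕ) % o) = a ^ ((t : ℕ) % o) := mul_left_cancel f1
    have f4 : (t' : ℕ) % o = (t : ℕ) % o := by
      subst ho
      exact pow_injOn_Iio_orderOf (by exact m2) (by exact m1) f3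
    apply Fin.ext
    rw [h1, h2, hdiv, f4]

end Loop

open Loop in
theorem loop : LoopS.{u} := by
  intro G _ _ A a ha hN hL
  obtain ⟨b, hb1, hb2⟩ := hL
  refine aux ha (Subgroup.zpowers a) (Subgroup.mem_zpowers a) (orderOf_pos a) ?_ b hb1 hb2
  rw [Subgroup.card_eq_card_quotient_mul_card_subgroup (Subgroup.zpowers a), Nat.card_zpowers]

end Pool.Agent.Lib.MP_688fd0_co.OSF
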